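import Pool.Agent.H38.Smp.Der

/-!
Short derivations in direct powers of completely regular monoids.
-/

namespace Pool.Agent.H38.Smp

open Submonoid

section
variable {F : Type} [Monoid F] {N : ℕ}

def JL (x y : F) : Prop := ∃ a b, x = a * y * b
def LL (x y : F) : Prop := ∃ a, x = a * y

theorem JL.trans {x y z : F} (h : JL x y) (h' : JL y z) : JL x z := by
  obtain ⟨a, b, rfl⟩ := h
  obtain ⟨c, d, rfl⟩ := h'
  exact ⟨a * c, d * b, by simp only [mul_assoc]⟩

theorem LL.trans {x y z : F} (h : LL x y) (h' : LL y z) : LL x z := by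
  obtain ⟨a, rfl⟩ := h
  obtain ⟨c, rfl⟩ := h'
  exact ⟨a * c, by simp only [mul_assoc]⟩

theorem LL.refl (x : F) : LL x x := ⟨1, by simp⟩
theorem LL.jl {x y : F} (h : LL x y) : JL x y := let ⟨a, e⟩ := h; ⟨a, 1, by simp [e]⟩
theorem jl_r (x y : F) : JL (x * y) y := ⟨x, 1, by simp⟩
theorem jl_l (x y : F) : JL (x * y) x := ⟨1, y, by simp⟩
theorem LL.mul {x y : F} (h : LL x y) (z : F) : LL (x * z) (y * z) :=
  let ⟨a, e⟩ := h; ⟨a, by rw [e, mul_assoc]⟩

variable (hN : ∀ x : F, x ^ (N + 1 + 1) = x)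
include hN

theorem e_mul (x : F) : x ^ (N + 1) * x = x := by rw [← pow_succ, hN]
theorem mul_e (x : F) : x * x ^ (N + 1) = x := by rw [← pow_succ', hN]
theorem e_e (x : F) : x ^ (N + 1) * x ^ (N + 1) = x ^ (N + 1) := by
  nth_rw 2 [pow_succ']
  rw [← mul_assoc, ← pow_succ, hN, ← pow_succ']

theorem jl_sq (x : F) : JL x (x * x) := ⟨1, x ^ N, by rw [one_mul, mul_assoc, ← pow_succ', mul_e hN]⟩

theorem jl_mul {q x y : F} (h : JL q x) (h' : JL q y) : JL q (x * y) := by
  have k : ∀ x y : F, JL (x * y) (y * x) := fun x y =>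
    (jl_sq hN _).trans ⟨x, y, by simp only [mul_assoc]⟩
  have k2 : ∀ {x y : F} (z), JL x y → JL (x * z) (y * z) := by
    rintro _ y z ⟨a, b, rfl⟩
    exact JL.trans ⟨a, 1, by simp only [mul_assoc, mul_one]⟩ ((jl_sq hN (y * (b * z))).trans
      (JL.trans ⟨y * b, b * z, by simp only [mul_assoc]⟩ (k z y)))
  exact (jl_sq hN q).trans ((k2 q h).trans ((k x q).trans ((k2 x h').trans (k y x))))

theorem jl_clo {q y : F} {B : Set F} (h : ∀ b ∈ B, JL q b) (hy : y ∈ closure B) : JL q y := by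
  induction hy using closure_induction with
  | mem x hx => exact h x hx
  | one => exact ⟨q, 1, by simp⟩
  | mul x y _ _ a b => exact jl_mul hN a b

theorem stabL {s u : F} (h : JL s u) : LL s (u * s) := by
  obtain ⟨a, b, e⟩ := jl_mul hN h (LL.refl s).jl
  have : ∀ j, s = (a * u) ^ j * s * b ^ j := fun j => by
    induction j with
    | zero => simp
    | succ j ih =>
      calc s = (a * u) ^ j * (a * (u * s) * b) * b ^ j := by rw [← e, ← ih]
        _ = _ := by simp only [pow_succ (a * u), pow_succ' b, mul_assoc]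
  have e2 : (a * u) ^ (N + 1) * s = s := by
    conv_lhs => rw [this (N + 1), ← mul_assoc, ← mul_assoc, e_e hN, ← this]
  exact ⟨(a * u) ^ N * a, by rw [mul_assoc, ← mul_assoc a, ← mul_assoc, ← pow_succ, e2]⟩

theorem stabR {s u : F} (h : JL s u) : (s * u) ^ (N + 1) * s = s := by
  obtain ⟨a, b, e⟩ := jl_mul hN (LL.refl s).jl h
  have : ∀ j, s = a ^ j * s * (u * b) ^ j := fun j => by
    induction j with
    | zero => simp
    | succ j ih =>
      calc s = a ^ j * (a * (s * u) * b) * (u * b) ^ j := by rw [← e, ← ih]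
        _ = _ := by simp only [pow_succ a, pow_succ' (u * b), mul_assoc]
  have e2 : s * (u * b) ^ (N + 1) = s := by
    conv_lhs => rw [this (N + 1), mul_assoc, e_e hN, ← this]
  have e3 : s = s * u * (b * (u * b) ^ N) := by
    rw [mul_assoc, ← mul_assoc u, ← pow_succ', e2]
  conv_lhs => rw [show (s * u) ^ (N + 1) * s = (s * u) ^ (N + 1) * (s * u * (b * (u * b) ^ N)) by rw [← e3],
    ← mul_assoc, e_mul hN, ← e3]

/-- Green's lemma in the form needed here. -/
theorem green {e r v : F} (hv : JL e v) (h : LL r (e * v)) : r = r * ((e * v) ^ (2 * N + 1) * e) * v := by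
  obtain ⟨y, rfl⟩ := h
  rw [mul_assoc y, ← mul_assoc (e * v), ← pow_succ', show 2 * N + 1 + 1 = N + 1 + (N + 1) by ring, pow_add,
    e_e hN, stabR hN hv, mul_assoc]

omit hN in
theorem hg_mul {e g h : F} (hN : ∀ x : F, x ^ (N + 1 + 1) = x) (a : g ^ (N + 1) = e) (b : h ^ (N + 1) = e) :
    (g * h) ^ (N + 1) = e := by
  have a1 : e * g = g := a ▸ e_mul hN g
  have b1 : h * e = h := b ▸ mul_e hN h
  have b2 : e * h = h := b ▸ e_mul hN h
  have k : g * h * (h ^ N * (g ^ N * g * g ^ N)) = e := by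
    rw [mul_assoc, ← mul_assoc h, ← pow_succ', b, ← pow_succ, a, ← mul_assoc e, ← a, e_e hN, ← mul_assoc,
      mul_e hN, ← pow_succ']
  calc (g * h) ^ (N + 1) = (g * h) ^ (N + 1) * e := by rw [pow_succ, mul_assoc, mul_assoc, b1]
    _ = (g * h) ^ (N + 1) * (g * h) * (h ^ N * (g ^ N * g * g ^ N)) := by rw [mul_assoc, k]
    _ = e := by rw [e_mul hN, k]

/-- Reachability lemma inside a maximal subgroup. -/
theorem cubeH [Finite F] {S C : ℕ} (hS : Nat.card F ≤ 2 ^ S) {e : F} (he : e ^ (N + 1) = e) {B X : Set F}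
    (hX : ∀ x ∈ X, x ^ (N + 1) = e ∧ Cost B x (C + 1)) (he' : Cost B e (C + 1)) {g : F}
    (hg : g ∈ closure X) : Cost B (e * g) ((S + 1) * (4 * S + 4 * N + 12) * (C + 1)) := by
  have k : ∀ g ∈ closure X, (e * g) ^ (N + 1) = e := fun g hg => by
    induction hg using closure_induction_right with
    | one => simpa using he
    | mul_right x _ y hy ih => rw [← mul_assoc]; exact hg_mul hN ih (hX y hy).1
  have k1 : ∀ {x : F}, x ^ (N + 1) = e → e * x = x := fun h => h ▸ e_mul hN _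
  have k2 : ∀ {x : F}, x ^ (N + 1) = e → x * e = x := fun h => h ▸ mul_e hN _
  let G := {y : F // ∃ g ∈ closure X, y = e * g}
  have kk : ∀ y : G, y.1 ^ (N + 1) = e := fun ⟨_, g, hg, rfl⟩ => k g hg
  letI : Mul G := ⟨fun y z => ⟨y.1 * z.1, by
    obtain ⟨_, g, hg, rfl⟩ := y
    obtain ⟨_, h, hh, rfl⟩ := z
    exact ⟨g * h, mul_mem hg hh, by simp only; rw [← mul_assoc, k2 (k g hg), mul_assoc]⟩⟩⟩
  letI : Monoid G :=
    { mul_assoc := fun a b c => Subtype.ext (mul_assoc _ _ _)
      one := ⟨e, 1, one_mem _, by simp⟩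
      one_mul := fun a => Subtype.ext (k1 (kk a))
      mul_one := fun a => Subtype.ext (k2 (kk a)) }
  have pw : ∀ (y : G) j, (y ^ (j + 1)).1 = y.1 ^ (j + 1) := fun y j => by
    induction j with
    | zero => simp
    | succ j ih => rw [pow_succ, pow_succ y.1, ← ih]; rfl
  letI : Group G := groupOfIsUnit fun y => IsUnit.of_pow_eq_one (n := N + 1)
    (Subtype.ext ((pw y N).trans (kk y))) (by omega)
  have top : closure {y : G | y.1 ∈ X} = ⊤ := by
    refine eq_top_iff.2 fun ⟨_, g, hg, rfl⟩ h => ?_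
    clear h
    induction hg using closure_induction_right with
    | one => exact (show (1 : G) = ⟨e * 1, 1, one_mem _, rfl⟩ from Subtype.ext (mul_one e).symm) ▸ one_mem _
    | mul_right x hx y hy ih =>
      convert mul_mem ih (subset_closure (show (⟨y, y, subset_closure hy, (k1 (hX y hy).1).symm⟩ : G) ∈
        {y : G | y.1 ∈ X} from hy))
      exact (mul_assoc _ _ _).symm
  obtain ⟨L, h1, h2, h3⟩ := cube (G := G) (N := N) (S := S) (fun y => Subtype.ext ((pw y _).trans (hN _))) top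
    ((Nat.card_le_card_of_injective _ Subtype.val_injective).trans hS) ⟨_, g, hg, rfl⟩
  obtain ⟨L', a1, a2, a3⟩ := h1.subst (B := B) (a := C) Subtype.val (fun _ _ => rfl)
    fun x hx => hx.elim (· ▸ he') fun hx => (hX _ hx).2
  exact ⟨L', a1, a2 _ h2, a3.trans (Nat.mul_le_mul_right _ h3)⟩

/-- Extension step, given short representatives of `L`-classes. -/
theorem extend [Finite F] {S Q : ℕ} (hS : Nat.card F ≤ 2 ^ S) {B : Set F} {q z : F}
    (hq : ∀ b ∈ B, JL q b) (hz : z ∈ closure B)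
    (hL : ∀ u ∈ closure B, ∃ v, Cost (insert 1 B) v Q ∧ LL (q * u) (q * v) ∧ LL (q * v) (q * u)) :
    Cost (insert q (insert 1 B)) (q * z) ((S + 1) * (4 * S + 4 * N + 12) * (2 * Q + 12 * N + 19 + 1) + Q + 3) := by
  obtain ⟨e, he⟩ : ∃ e, e = q ^ (N + 1) := ⟨_, rfl⟩
  have ee : e * e = e := he ▸ e_e hN q
  have eN : e ^ (N + 1) = e := IsIdempotentElem.pow_succ_eq _ ee
  have je : ∀ u ∈ closure B, JL e u := fun u hu => JL.trans ⟨q ^ N, 1, by simp [he, pow_succ]⟩ (jl_clo hN hq hu)
  have cq : Cost (insert q (insert 1 B)) q 1 := .gen (by simp)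
  have ce : Cost (insert q (insert 1 B)) e (2 * N + 2) := he ▸ (cq.pow N).le (by omega)
  have tr : ∀ {u v}, LL (q * u) (q * v) → LL (e * u) (e * v) := fun {u v} h =>
    LL.trans ⟨q ^ N, by rw [he, pow_succ, mul_assoc]⟩ (h.trans ⟨q, by rw [← mul_assoc, he, mul_e hN]⟩)
  obtain ⟨X, hX⟩ : ∃ X : Set F, ∀ x, x ∈ X ↔
      x ^ (N + 1) = e ∧ Cost (insert q (insert 1 B)) x (2 * Q + 12 * N + 19 + 1) := ⟨{x | _}, fun _ => Iff.rfl⟩
  have e2 : ∀ g ∈ closure X, e * g * e = e * g := fun g hg => by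
    induction hg using closure_induction_right with
    | one => simp [ee]
    | mul_right g _ y hy _ => rw [mul_assoc, mul_assoc, ← ((hX y).1 hy).1, mul_e hN]
  have key : ∀ u ∈ closure B, ∀ v, Cost (insert 1 B) v Q → LL (e * u) (e * v) →
      ∃ g ∈ closure X, e * u = e * g * v := fun u hu => by
    have fin : ∀ u w : F, ∀ g ∈ closure X, e * u = e * g * (e * w) → w ∈ closure B →
        Cost (insert 1 B) w (Q + 2) → LL (e * w) (e * u) →
        ∀ v, Cost (insert 1 B) v Q → LL (e * u) (e * v) → ∃ g ∈ closure X, e * u = e * g * v := by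
      intro u w g hg e1 hw cw l1 v cv l2
      have hv := cv.mem
      refine ⟨g * (e * w * ((e * v) ^ (2 * N + 1) * e)), mul_mem hg (subset_closure ((hX _).2 ⟨?_, ?_⟩)), ?_⟩
      · have j : JL e (w * (e * v) ^ (2 * N + 1)) := jl_mul hN (je w hw) (jl_clo hN (B := {e * v})
          (by simpa using jl_mul hN (LL.refl e).jl (je v hv)) (pow_mem (subset_closure (Set.mem_singleton _)) _))
        have := stabR hN (jl_mul hN j (LL.refl e).jl)
        rw [pow_succ, mul_assoc, mul_assoc e, mul_assoc _ e e, ee, ← pow_succ] at this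
        simpa only [mul_assoc] using this
      · have c1 := ce.mul (cv.mono (Set.subset_insert _ _) le_rfl)
        have c2 := ce.mul (cw.mono (Set.subset_insert _ _) le_rfl)
        exact (c2.mul ((c1.pow (2 * N)).mul ce)).le (by omega)
      · exact e1.trans ((congrArg (e * g * ·) (green hN (je v hv) (l1.trans l2))).trans
          (by simp only [mul_assoc]))
    induction hu using closure_induction_right with
    | one => exact fin 1 1 1 (one_mem _) (by simp [ee]) (one_mem _) ((Cost.gen (by simp)).le (by omega)) (.refl _)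
    | mul_right u hu x hx ih =>
      obtain ⟨w, cw, l1, l2⟩ := hL u hu
      obtain ⟨g, hg, e1⟩ := ih w cw (tr l1)
      refine fin (u * x) (w * x) g hg (by rw [← mul_assoc, e1, ← mul_assoc, e2 g hg, mul_assoc])
        (mul_mem cw.mem (subset_closure hx)) (cw.mul (.gen (.inr hx))) ?_
      simpa only [mul_assoc] using (tr l2).mul x
  obtain ⟨v, cv, l1, -⟩ := hL z hz
  obtain ⟨g, hg, e1⟩ := key z hz v cv (tr l1)
  have := cq.mul ((cubeH hN hS eN (fun x hx => (hX x).1 hx) (ce.le (by omega)) hg).mul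
    (cv.mono (Set.subset_insert _ _) le_rfl))
  rw [← e1, ← mul_assoc, he, mul_e hN] at this
  exact this.le (by omega)
end

section
variable {M ι : Type} [Monoid M] [Fintype M] [Fintype ι] {N : ℕ}

open Classical in
noncomputable def ht (s : M) : ℕ := (Finset.univ.filter fun u => u ≠ 1 ∧ JL s u).card

theorem ht_le {s u : M} (h : JL s u) : ht u ≤ ht s :=
  Finset.card_le_card fun x => by simpa using fun a b => ⟨a, h.trans b⟩

theorem ht_lt {s u : M} (h : JL s u) (h' : ¬ JL u s) : ht u < ht s := by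
  refine Finset.card_lt_card ⟨fun x => by simpa using fun a b => ⟨a, h.trans b⟩, fun c => ?_⟩
  have := @c s
  simp only [Finset.mem_filter, Finset.mem_univ, true_and] at this
  exact h' (this ⟨by rintro rfl; exact h' ⟨u, 1, by simp⟩, (LL.refl s).jl⟩).2

theorem JL.ev {x y : ι → M} (h : JL x y) (c : ι) : JL (x c) (y c) :=
  let ⟨a, b, e⟩ := h; ⟨a c, b c, congrFun e c⟩

theorem ll_pi {x y : ι → M} (h : ∀ c, LL (x c) (y c)) : LL x y := by
  choose a ha using h
  exact ⟨a, funext ha⟩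

def Cl (M ι : Type) [Monoid M] [Fintype M] (k t P : ℕ) : Prop := ∀ (B : Finset (ι → M)) (w : ι → M),
  B.card ≤ k → w ∈ closure (B : Set (ι → M)) → (∀ c, ht (w c) ≤ t) → Cost (insert 1 (B : Set (ι → M))) w P

variable {k t P : ℕ}

theorem Cl.res (h : Cl M ι k t P) (h1 : ht (1 : M) = 0) {B : Finset (ι → M)} (hB : B.card ≤ k) {w}
    (hw : w ∈ closure (B : Set (ι → M))) (K : ι → Prop) (hK : ∀ c, K c → ht (w c) ≤ t) :
    ∃ v, Cost (insert 1 (B : Set (ι → M))) v P ∧ ∀ c, K c → v c = w c := by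
  classical
  let ρ : (ι → M) →* (ι → M) :=
    { toFun := fun x c => if K c then x c else 1
      map_one' := by ext c; simp
      map_mul' := fun x y => by ext c; simp only [Pi.mul_apply]; split_ifs <;> simp }
  obtain ⟨L, a1, a2, a3⟩ := h (B.image ρ) (ρ w) (Finset.card_image_le.trans hB)
    (by rw [Finset.coe_image, ← MonoidHom.map_mclosure]; exact mem_map_of_mem ρ hw)
    fun c => by change ht (if K c then w c else 1) ≤ t; split_ifs with e; exacts [hK c e, by omega]
  rw [Finset.coe_image, ← ρ.map_one, ← Set.image_insert_eq] at a1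
  obtain ⟨L', b1, rfl⟩ := a1.lift ρ ρ.map_mul
  obtain ⟨v, hv, e⟩ := List.mem_map.1 a2
  exact ⟨v, ⟨L', b1, hv, by simpa using a3⟩, fun c hc => by simpa [ρ, hc] using congrFun e c⟩

variable (hN : ∀ x : M, x ^ (N + 1 + 1) = x)
include hN

theorem lpart (h : Cl M ι k t P) (h1 : ht (1 : M) = 0) {B : Finset (ι → M)} (hB : B.card ≤ k) {p : ι → M}
    (hp : ∀ c, ht (p c) ≤ t + 1) (hq : ∀ b ∈ (B : Set (ι → M)), JL p b) :
    ∀ u ∈ closure (B : Set (ι → M)), ∃ v, Cost (insert 1 (B : Set (ι → M))) v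
      ((Fintype.card ι + 1) * (P + 3) + 1) ∧ LL (p * u) (p * v) ∧ LL (p * v) (p * u) := by
  classical
  have hF : ∀ x : ι → M, x ^ (N + 1 + 1) = x := fun x => funext fun c => hN _
  have J : ∀ {u}, u ∈ closure (B : Set (ι → M)) → ∀ c, JL (p c) (u c) := fun hu => (jl_clo hF hq hu).ev
  let D : (ι → M) → Finset ι := fun s => Finset.univ.filter fun c => JL (s c) (p c)
  have A : ∀ {y s v : ι → M}, y ∈ closure (B : Set (ι → M)) → (∀ c, ¬ JL (s c) (p c) → ¬ JL ((y * s) c) (p c)) →
      ∃ v, Cost (insert 1 (B : Set (ι → M))) v P ∧ ∀ c, ¬ JL (s c) (p c) → v c = y c := fun {y s v} hy e =>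
    h.res h1 hB hy _ fun c hc => by
      have := ht_lt (J hy c) fun a => e c hc ((jl_l _ _).trans a)
      have := hp c
      omega
  have T : ∀ {a b s v : M} {c}, JL (p c) a → JL (p c) b → JL s (p c) → LL s v → LL v s →
      LL (a * s) (b * v) := fun {a b s v c} ha hb h l1 l2 =>
    LL.trans ⟨a, rfl⟩ (l1.trans (stabL hN (l2.jl.trans (h.trans hb))))
  have key : ∀ u ∈ closure (B : Set (ι → M)), ∃ y ∈ closure (B : Set (ι → M)), ∃ s v, u = y * s ∧
      (∀ c, ¬ JL (s c) (p c) → ¬ JL (u c) (p c) ∧ v c = s c) ∧ (∀ c, LL (s c) (v c) ∧ LL (v c) (s c)) ∧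
      Cost (insert 1 (B : Set (ι → M))) v ((D s).card * (P + 3) + 1) := fun u hu => by
    induction hu using closure_induction_left with
    | one => exact ⟨1, one_mem _, 1, 1, by simp, fun c h => ⟨h, rfl⟩, fun c => ⟨.refl _, .refl _⟩,
        (Cost.gen (by simp)).le (by omega)⟩
    | mul_left x hx u hu ih =>
      obtain ⟨y, hy, s, v, rfl, a1, a2, a3⟩ := ih
      have hx' := subset_closure hx
      by_cases e : ∀ c, ¬ JL (s c) (p c) → ¬ JL ((x * (y * s)) c) (p c)
      · exact ⟨x * y, mul_mem hx' hy, s, v, (mul_assoc _ _ _).symm, fun c h => ⟨e c h, (a1 c h).2⟩, a2, a3⟩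
      obtain ⟨w, b1, b2⟩ := A (v := v) hy fun c h => (a1 c h).1
      have sub : ∀ c, JL (s c) (p c) → JL ((x * (y * s)) c) (p c) := fun c h =>
        (jl_r _ _).trans ((jl_r _ _).trans h)
      have eq : ∀ c, ¬ JL (s c) (p c) → (x * (w * v)) c = (x * (y * s)) c := fun c h => by
        simp only [Pi.mul_apply, b2 c h, (a1 c h).2]
      refine ⟨1, one_mem _, x * (y * s), x * (w * v), by simp, fun c h => ⟨h, eq c (mt (sub c) h)⟩,
        fun c => ?_, ((Cost.gen (.inr hx)).mul (b1.mul a3)).le ?_⟩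
      · by_cases d : JL (s c) (p c)
        · simp only [Pi.mul_apply, ← mul_assoc]
          have c1 := J (mul_mem hx' hy) c
          have c2 := J (mul_mem hx' b1.mem) c
          exact ⟨T c1 c2 d (a2 c).1 (a2 c).2, T c2 c1 ((a2 c).2.jl.trans d) (a2 c).2 (a2 c).1⟩
        · rw [eq c d]; exact ⟨.refl _, .refl _⟩
      · push Not at e
        obtain ⟨c, c1, c2⟩ := e
        have : (D s).card < (D (x * (y * s))).card := Finset.card_lt_card
          ⟨fun c => by simpa [D] using sub c, fun h => c1 (by simpa [D] using h (by simpa [D] using c2 : c ∈ _))⟩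
        nlinarith
  intro u hu
  obtain ⟨y, hy, s, v, rfl, a1, a2, a3⟩ := key u hu
  obtain ⟨w, b1, b2⟩ := A (v := v) hy fun c h => (a1 c h).1
  have := (D s).card_le_univ
  have k : ∀ c, LL ((p * (y * s)) c) ((p * (w * v)) c) ∧ LL ((p * (w * v)) c) ((p * (y * s)) c) := fun c => by
    by_cases d : JL (s c) (p c)
    · simp only [Pi.mul_apply, ← mul_assoc]
      have c1 := jl_mul hN (LL.refl _).jl (J hy c)
      have c2 := jl_mul hN (LL.refl _).jl (J b1.mem c)
      exact ⟨T c1 c2 d (a2 c).1 (a2 c).2, T c2 c1 ((a2 c).2.jl.trans d) (a2 c).2 (a2 c).1⟩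
    · simp only [Pi.mul_apply, b2 c d, (a1 c d).2]; exact ⟨.refl _, .refl _⟩
  exact ⟨w * v, (b1.mul a3).le (by nlinarith), ll_pi fun c => (k c).1, ll_pi fun c => (k c).2⟩

def nxt (N S n k P : ℕ) : ℕ :=
  (k + 1) * ((S + 1) * (4 * S + 4 * N + 12) * (2 * ((n + 1) * (P + 3) + 1) + 12 * N + 19 + 1) +
    ((n + 1) * (P + 3) + 1) + 5)

theorem Cl.succ (h : Cl M ι k t P) (h1 : ht (1 : M) = 0) {S} (hS : Nat.card (ι → M) ≤ 2 ^ S) :
    Cl M ι k (t + 1) (nxt N S (Fintype.card ι) k P) := by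
  classical
  intro B w hB hw hh
  have hF : ∀ x : ι → M, x ^ (N + 1 + 1) = x := fun x => funext fun c => hN _
  obtain ⟨R, hR⟩ : ∃ R, R = (S + 1) * (4 * S + 4 * N + 12) *
    (2 * ((Fintype.card ι + 1) * (P + 3) + 1) + 12 * N + 19 + 1) + ((Fintype.card ι + 1) * (P + 3) + 1) := ⟨_, rfl⟩
  rw [nxt, ← hR]
  have ex : ∀ C ⊆ B, ∀ q z a, z ∈ closure (C : Set (ι → M)) → (∀ b ∈ (C : Set (ι → M)), JL q b) →
      Cost (insert 1 (B : Set (ι → M))) q a → (∀ c, ht ((q * z) c) ≤ t + 1) →
      Cost (insert 1 (B : Set (ι → M))) (q * z) (a + (R + 3)) := fun C hC q z a hz hq cq hh => by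
    have := extend hF hS hq hz (lpart hN h h1 ((Finset.card_le_card hC).trans hB)
      (fun c => (ht_le (jl_l (q c) (z c))).trans (hh c)) hq)
    rw [← hR] at this
    exact cq.trans (this.mono (Set.insert_subset_insert (Set.insert_subset_insert (by simpa using hC))) le_rfl)
  obtain ⟨C, hC, q, z, rfl, hz, hq, cq⟩ : ∃ C ⊆ B, ∃ q z, w = q * z ∧ z ∈ closure (C : Set (ι → M)) ∧
      (∀ b ∈ (C : Set (ι → M)), JL q b) ∧ Cost (insert 1 (B : Set (ι → M))) q (C.card * (R + 5) + 1) := by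
    induction hw using closure_induction_right with
    | one => exact ⟨∅, by simp, 1, 1, by simp, one_mem _, by simp, by simpa using Cost.gen (by simp)⟩
    | mul_right u hu x hx ih =>
      have hu := fun c => (ht_le (jl_l (u c) (x c))).trans (hh c)
      obtain ⟨C, hC, q, z, rfl, hz, hq, cq⟩ := ih hu
      by_cases e : x ∈ C
      · exact ⟨C, hC, q, z * x, mul_assoc _ _ _, mul_mem hz (subset_closure e), hq, cq⟩
      refine ⟨insert x C, Finset.insert_subset hx hC, q * z * x, 1, by simp, one_mem _, fun b hb => ?_,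
        ((ex C hC q z _ hz hq cq hu).mul (.gen (.inr hx))).le ?_⟩
      · rcases (by simpa using hb : b = x ∨ b ∈ C) with rfl | hb
        · exact jl_r _ _
        · exact (jl_l _ _).trans ((jl_l _ _).trans (hq b hb))
      · rw [Finset.card_insert_of_notMem e, add_mul]; omega
  have := Nat.mul_le_mul_right (R + 5) ((Finset.card_le_card hC).trans hB)
  exact (ex C hC q z _ hz hq cq hh).le (by rw [add_mul]; omega)

theorem cl_all (h1 : ∀ a b : M, a * b = 1 → a = 1 ∧ b = 1) {S} (hS : Nat.card (ι → M) ≤ 2 ^ S) (k t : ℕ) :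
    Cl M ι k t ((nxt N S (Fintype.card ι) k)^[t] 1) := by
  induction t with
  | zero =>
    intro B w _ _ hh
    obtain rfl : w = 1 := funext fun c => by_contra fun e => by
      have := hh c
      simp only [ht, nonpos_iff_eq_zero, Finset.card_eq_zero, Finset.filter_eq_empty_iff] at this
      exact this (Finset.mem_univ _) ⟨e, (LL.refl _).jl⟩
    exact .gen (by simp)
  | succ t ih =>
    rw [Function.iterate_succ_apply']
    refine ih.succ hN ?_ hS
    simp only [ht, Finset.card_eq_zero, Finset.filter_eq_empty_iff]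
    rintro u - ⟨a, b, c, e⟩
    exact a (h1 _ _ (h1 _ _ e.symm).1).2
end

end Pool.Agent.H38.Smp
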