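import Pool.Agent.H38.NP.Defs

/-!
The subpower membership problem of a finite semigroup.
-/

namespace Pool.Agent.H38.Smp

/-- Completely regular semigroups. -/
def CompReg (S : Type) [Semigroup S] : Prop := ∀ a : S, ∃ x, a = a * x * a ∧ a * x = x * a

/-- Yes-instances `(n, [a₁, …, a_k], b)`: the lists are codes of tuples in `S ^ n`, written
letter by letter with the code `cd`, and `b` lies in the subsemigroup generated by the `aᵢ`. -/
def SMP {S : Type} [Semigroup S] (cd : S → ℕ) (p : ℕ × List (List ℕ) × List ℕ) : Prop :=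
  ∃ (a : Fin p.2.1.length → Fin p.1 → S) (b : Fin p.1 → S),
    (∀ i, p.2.1[i] = List.ofFn (cd ∘ a i)) ∧ p.2.2 = List.ofFn (cd ∘ b) ∧
      b ∈ Subsemigroup.closure (Set.range a)

end Pool.Agent.H38.Smp
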