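import Mathlib

/-!
Straight-line derivations in semigroups and the reachability lemma for finite groups.
-/

namespace Pool.Agent.H38.Smp

inductive Der {A : Type} [Mul A] (B : Set A) : List A → Prop
  | nil : Der B []
  | gen {x L} : x ∈ B → Der B L → Der B (x :: L)
  | cp {x L} : x ∈ L → Der B L → Der B (x :: L)
  | mul {y z L} : y ∈ L → z ∈ L → Der B L → Der B (y * z :: L)

def Cost {A : Type} [Mul A] (B : Set A) (g : A) (m : ℕ) : Prop := ∃ L, Der B L ∧ g ∈ L ∧ L.length ≤ m

section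
variable {A A' : Type} [Mul A] [Mul A'] {B B' : Set A} {L L' : List A} {g h : A} {a b : ℕ}

theorem Der.mono (h : Der B L) (s : B ⊆ B') : Der B' L := by
  induction h with
  | nil => exact .nil
  | gen a _ ih => exact .gen (s a) ih
  | cp a _ ih => exact .cp a ih
  | mul a b _ ih => exact .mul a b ih

theorem Der.app (h : Der B L) (h' : Der (B ∪ {x | x ∈ L}) L') : Der B (L' ++ L) := by
  induction h' with
  | nil => exact h
  | gen a _ ih => exact a.elim (.gen · ih) fun a => .cp (List.mem_append_right _ a) ih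
  | cp a _ ih => exact .cp (List.mem_append_left _ a) ih
  | mul a b _ ih => exact .mul (List.mem_append_left _ a) (List.mem_append_left _ b) ih

theorem Cost.gen (h : g ∈ B) : Cost B g 1 := ⟨[g], .gen h .nil, by simp, le_rfl⟩

theorem Cost.mono (h : Cost B g a) (s : B ⊆ B') (e : a ≤ b) : Cost B' g b :=
  let ⟨L, h1, h2, h3⟩ := h
  ⟨L, h1.mono s, h2, h3.trans e⟩

theorem Cost.le (h : Cost B g a) (e : a ≤ b) : Cost B g b := h.mono subset_rfl e

theorem Cost.mul (h1 : Cost B g a) (h2 : Cost B h b) : Cost B (g * h) (a + b + 1) :=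
  let ⟨L, a1, a2, a3⟩ := h1
  let ⟨L', b1, b2, b3⟩ := h2
  ⟨g * h :: (L' ++ L), .mul (by simp [a2]) (by simp [b2]) (a1.app (b1.mono Set.subset_union_left)),
    by simp, by simp; omega⟩

theorem Der.ext (h : Der B L) (h' : Cost (B ∪ {x | x ∈ L}) g b) : Cost B g (L.length + b) :=
  let ⟨L', b1, b2, b3⟩ := h'
  ⟨L' ++ L, h.app b1, by simp [b2], by simp; omega⟩

theorem Cost.trans (h1 : Cost B g a) (h2 : Cost (insert g B) h b) : Cost B h (a + b) :=
  let ⟨_, a1, a2, a3⟩ := h1
  (a1.ext (h2.mono (Set.insert_subset (.inr a2) Set.subset_union_left) le_rfl)).le (by omega)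

theorem Der.subst {X : Set A'} {L : List A'} (h : Der X L) (f : A' → A) (hf : ∀ x y, f (x * y) = f x * f y)
    (hX : ∀ x ∈ X, Cost B (f x) (a + 1)) :
    ∃ L', Der B L' ∧ (∀ y ∈ L, f y ∈ L') ∧ L'.length ≤ L.length * (a + 1) := by
  induction h with
  | nil => exact ⟨[], .nil, by simp, by simp⟩
  | gen x _ ih =>
    obtain ⟨L1, a1, a2, a3⟩ := ih
    obtain ⟨L2, b1, b2, b3⟩ := hX _ x
    exact ⟨L2 ++ L1, a1.app (b1.mono Set.subset_union_left), by simp +contextual [a2, b2],
      by simp [add_mul]; omega⟩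
  | cp x _ ih =>
    obtain ⟨L1, a1, a2, a3⟩ := ih
    exact ⟨L1, a1, by simp +contextual [a2, x], by simp [add_mul]; omega⟩
  | mul x y _ ih =>
    obtain ⟨L1, a1, a2, a3⟩ := ih
    exact ⟨_ :: L1, .mul (a2 _ x) (a2 _ y) a1, by simp +contextual [a2, hf], by simp [add_mul]; omega⟩

theorem Der.lift {L : List A'} (f : A → A') (hf : ∀ x y, f (x * y) = f x * f y) (h : Der (f '' B) L) :
    ∃ L', Der B L' ∧ L'.map f = L := by
  induction h with
  | nil => exact ⟨[], .nil, rfl⟩
  | gen x _ ih =>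
    obtain ⟨L1, a1, rfl⟩ := ih
    obtain ⟨y, hy, rfl⟩ := x
    exact ⟨y :: L1, .gen hy a1, rfl⟩
  | cp x _ ih =>
    obtain ⟨L1, a1, rfl⟩ := ih
    obtain ⟨y, hy, rfl⟩ := List.mem_map.1 x
    exact ⟨y :: L1, .cp hy a1, rfl⟩
  | mul x y _ ih =>
    obtain ⟨L1, a1, rfl⟩ := ih
    obtain ⟨u, hx, rfl⟩ := List.mem_map.1 x
    obtain ⟨v, hy, rfl⟩ := List.mem_map.1 y
    exact ⟨u * v :: L1, .mul hx hy a1, by simp [hf]⟩
end

section
variable {F : Type} [Monoid F] {B : Set F} {g : F} {a : ℕ}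

theorem Cost.mem (h : Cost (insert 1 B) g a) : g ∈ Submonoid.closure B := by
  obtain ⟨L, h1, h2, -⟩ := h
  induction h1 generalizing g with
  | nil => simp at h2
  | gen x _ ih =>
    rcases List.mem_cons.1 h2 with rfl | h
    exacts [x.elim (· ▸ one_mem _) (Submonoid.subset_closure ·), ih h]
  | cp x _ ih => exact ih ((List.mem_cons.1 h2).elim (· ▸ x) id)
  | mul x y _ ih => exact (List.mem_cons.1 h2).elim (· ▸ mul_mem (ih x) (ih y)) ih

theorem Cost.pow (h : Cost B g a) (j : ℕ) : Cost B (g ^ (j + 1)) (a + (2 * j + 1)) := by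
  refine h.trans ?_
  induction j with
  | zero => simpa using Cost.gen (by simp)
  | succ j ih => rw [pow_succ]; exact (ih.mul (.gen (by simp))).le (by omega)
end

theorem cube {G : Type} [Group G] [Finite G] {N S : ℕ} (hN : ∀ x : G, x ^ (N + 1 + 1) = x) {X : Set G}
    (hX : Submonoid.closure X = ⊤) (hS : Nat.card G ≤ 2 ^ S) (g : G) :
    Cost (insert 1 X) g ((S + 1) * (4 * S + 4 * N + 12)) := by
  classical
  by_contra hg
  have inv : ∀ x : G, x⁻¹ = x ^ (2 * N + 1) := fun x => by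
    have : x ^ (N + 1) = 1 := by have := hN x; rw [pow_succ] at this; simpa using this
    rw [inv_eq_iff_mul_eq_one, ← pow_succ', show 2 * N + 1 + 1 = (N + 1) * 2 by ring, pow_mul, this, one_pow]
  have : ∀ s ≤ S + 1, ∃ (L : List G) (K : Finset G), Der (insert 1 X) L ∧
      L.length ≤ s * (4 * S + 4 * N + 12) ∧ K.card = 2 ^ s ∧
      ∀ c ∈ K, Cost (insert 1 X ∪ {x | x ∈ L}) c (2 * s + 1) := by
    intro s hs
    induction s with
    | zero => exact ⟨[], {1}, .nil, by simp, rfl, by simpa using Cost.gen (by simp)⟩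
    | succ s ih =>
      obtain ⟨L, K, h1, h2, h3, h4⟩ := ih (by omega)
      have hD : ∀ c ∈ K, ∀ d ∈ K, Cost (insert 1 X ∪ {x | x ∈ L}) (c⁻¹ * d) (4 * S + 4 * N + 10) :=
        fun c hc d hd => inv c ▸ (((h4 c hc).pow _).mul (h4 d hd)).le (by omega)
      obtain ⟨c, hc, d, hd, x, hx, hz⟩ : ∃ c ∈ K, ∃ d ∈ K, ∃ x ∈ X, ¬ ∃ c' ∈ K, ∃ d' ∈ K,
          c⁻¹ * d * x = c'⁻¹ * d' := by
        by_contra hn
        push Not at hn
        obtain ⟨c, hc, d, hd, rfl⟩ : ∃ c ∈ K, ∃ d ∈ K, g = c⁻¹ * d := by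
          clear hg
          induction g using Submonoid.induction_of_closure_eq_top_right hX with
          | one =>
            obtain ⟨c, hc⟩ := Finset.card_pos.1 (show 0 < K.card by rw [h3]; positivity)
            exact ⟨c, hc, c, hc, by simp⟩
          | mul_right y x hx ih =>
            obtain ⟨c, hc, d, hd, rfl⟩ := ih
            exact hn c hc d hd x hx
        exact hg ((h1.ext (hD c hc d hd)).le (by nlinarith))
      obtain ⟨L', b1, b2, b3⟩ := (hD c hc d hd).mul (.gen (.inl (.inr hx)))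
      refine ⟨L' ++ L, K ∪ K.image (· * (c⁻¹ * d * x)), h1.app b1, by simp [add_mul]; omega, ?_, ?_⟩
      · rw [Finset.card_union_of_disjoint, Finset.card_image_of_injective _ (mul_left_injective _), h3,
          pow_succ, mul_two]
        refine Finset.disjoint_left.2 fun y hy hy' => ?_
        obtain ⟨u, hu, rfl⟩ := Finset.mem_image.1 hy'
        exact hz ⟨u, hu, _, hy, by simp⟩
      · have sub : insert 1 X ∪ {x | x ∈ L} ⊆ insert 1 X ∪ {x | x ∈ L' ++ L} :=
          Set.union_subset_union_right _ fun y hy => List.mem_append_right _ hy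
        intro y hy
        rcases Finset.mem_union.1 hy with hy | hy
        · exact (h4 y hy).mono sub (by omega)
        · obtain ⟨u, hu, rfl⟩ := Finset.mem_image.1 hy
          exact (((h4 u hu).mono sub le_rfl).mul (.gen (.inr (List.mem_append_left _ b2)))).le (by omega)
  obtain ⟨-, K, -, -, h, -⟩ := this _ le_rfl
  have := Fintype.ofFinite G
  have := K.card_le_univ
  rw [Nat.card_eq_fintype_card] at hS
  have : 0 < 2 ^ S := by positivity
  omega

end Pool.Agent.H38.Smp
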