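import Pool.Agent.H38.Smp.Defs
import Pool.Agent.H38.Smp.CR
import Pool.Agent.H38.NP.Api

/-!
The verifier.
-/

namespace Pool.Agent.H38.Smp

open Pool.Agent.H38.NP

instance {S : Type} [Finite S] : Finite (WithOne S) := inferInstanceAs (Finite (Option S))

theorem expo {S : Type} [Semigroup S] [Finite S] (h : CompReg S) :
    ∃ N, ∀ x : WithOne S, x ^ (N + 1 + 1) = x := by
  have : ∀ x : WithOne S, ∃ p, x ^ (p + 1 + 1) = x := fun x => by
    induction x using WithOne.recOneCoe with
    | one => exact ⟨0, by simp⟩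
    | coe a =>
      obtain ⟨y, h1, h2⟩ := h a
      have c : Commute (a : WithOne S) y := by simpa [Commute, SemiconjBy, ← WithOne.coe_mul] using h2
      have e : (a : WithOne S) * y * a = a := by simpa [← WithOne.coe_mul] using h1.symm
      generalize (a : WithOne S) = a at *
      generalize (y : WithOne S) = y at *
      have k : ∀ j, a ^ (j + 1) * y ^ j = a := fun j => by
        induction j with
        | zero => simp
        | succ j ih =>
          rw [pow_succ a, pow_succ' y, mul_assoc, ← mul_assoc a, pow_succ, mul_assoc, ← mul_assoc a, c.eq,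
            ← mul_assoc a, e, ← mul_assoc, ← pow_succ, ih]
      obtain ⟨i, j, hij, e⟩ := Set.Finite.exists_lt_map_eq_of_forall_mem (f := fun n => a ^ (n + 1))
        (t := Set.univ) (fun _ => trivial) Set.finite_univ
      obtain ⟨p, rfl⟩ := Nat.exists_eq_add_of_lt hij
      refine ⟨p, ?_⟩
      have e' : a ^ (i + 1) = a ^ (p + 1) * a ^ (i + 1) := by rw [← pow_add, e]; congr 1; omega
      calc a ^ (p + 1 + 1) = a ^ (p + 1) * (a ^ (i + 1) * y ^ i) := by rw [k, ← pow_succ]
        _ = a := by rw [← mul_assoc, ← e', k]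
  choose p hp using this
  have := Fintype.ofFinite (WithOne S)
  refine ⟨∏ x, (p x + 1) - 1, fun x => ?_⟩
  have h0 : 0 < ∏ x, (p x + 1) := Finset.prod_pos fun _ _ => by omega
  obtain ⟨j, hj⟩ := Finset.dvd_prod_of_mem (fun x => p x + 1) (Finset.mem_univ x)
  rw [Nat.sub_add_cancel h0, hj]
  clear hj
  induction j with
  | zero => simp
  | succ j ih => rw [mul_add, mul_one, add_assoc, pow_add, hp, ← pow_succ, ih]

def ok (n : ℕ) (G : List (List ℕ)) (T : List (ℕ × ℕ × ℕ)) (x : List ℕ) (R : List (List ℕ)) : Bool :=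
  decide (x ∈ G) || decide (x = List.replicate n 0) || decide (x ∈ R) ||
    R.any fun y => R.any fun z => decide (x.length = n) &&
      (List.range n).all fun c => decide ((y.getD c 0, z.getD c 0, x.getD c 0) ∈ T)

def chk (n : ℕ) (G : List (List ℕ)) (T : List (ℕ × ℕ × ℕ)) (W : List (List ℕ)) : Bool :=
  (List.range W.length).all fun i => ok n G T (W.getD i []) (W.drop (i + 1))

theorem chk_cons {n G T x W} : chk n G T (x :: W) = (ok n G T x W && chk n G T W) := by
  simp [chk, List.range_succ_eq_map, List.all_map, Function.comp_def]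

section
variable {M : Type} [Monoid M] {c : M → ℕ} (hc : Function.Injective c) (c1 : c 1 = 0) {T : List (ℕ × ℕ × ℕ)}
  (hT : ∀ x, x ∈ T ↔ ∃ a b, x = (c a, c b, c (a * b))) {n : ℕ} {B : Set (Fin n → M)} {G : List (List ℕ)}
  (hG : ∀ x, x ∈ G ↔ ∃ b ∈ B, x = List.ofFn (c ∘ b))
include c1 hT hG

theorem chk_of {L} (h : Der (insert 1 B) L) : chk n G T (L.map fun x => List.ofFn (c ∘ x)) = true := by
  induction h with
  | nil => rfl
  | gen h _ ih =>
    rw [List.map_cons, chk_cons, ih]
    rcases h with rfl | h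
    · have : List.ofFn (c ∘ (1 : Fin n → M)) = List.replicate n 0 := by
        rw [← c1, ← List.ofFn_const]; rfl
      simp only [ok, decide_eq_true this, Bool.true_or, Bool.or_true, Bool.and_self]
    · simp only [ok, decide_eq_true ((hG _).2 ⟨_, h, rfl⟩), Bool.true_or, Bool.and_self]
  | cp h _ ih =>
    rw [List.map_cons, chk_cons, ih]
    simp only [ok, decide_eq_true (List.mem_map_of_mem h), Bool.true_or, Bool.or_true, Bool.and_self]
  | mul h h' _ ih =>
    rw [List.map_cons, chk_cons, ih]
    simp only [ok, Bool.and_true, Bool.or_eq_true, List.any_eq_true, Bool.and_eq_true, decide_eq_true_eq,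
      List.all_eq_true, List.mem_range]
    exact .inr ⟨_, List.mem_map_of_mem h, _, List.mem_map_of_mem h', by simp, fun i hi =>
      (hT _).2 ⟨_, _, by simp [hi]; exact ⟨rfl, rfl, rfl⟩⟩⟩

include hc in
theorem of_chk {W} (h : chk n G T W = true) :
    ∀ x ∈ W, ∃ m ∈ Submonoid.closure B, x = List.ofFn (c ∘ m) := by
  induction W with
  | nil => simp
  | cons x W ih =>
    rw [chk_cons, Bool.and_eq_true] at h
    have ih := ih h.2
    refine List.forall_mem_cons.2 ⟨?_, ih⟩
    have h := h.1
    simp only [ok, Bool.or_eq_true, List.any_eq_true, Bool.and_eq_true, decide_eq_true_eq,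
      List.all_eq_true, List.mem_range] at h
    rcases h with ((h | rfl) | h) | ⟨y, hy, z, hz, rfl, h⟩
    · obtain ⟨b, hb, e⟩ := (hG _).1 h
      exact ⟨b, Submonoid.subset_closure hb, e⟩
    · exact ⟨1, one_mem _, by rw [← c1, ← List.ofFn_const]; rfl⟩
    · exact ih x h
    · obtain ⟨u, hu, rfl⟩ := ih y hy
      obtain ⟨v, hv, rfl⟩ := ih z hz
      refine ⟨u * v, mul_mem hu hv, List.ext_getElem (by simp) fun i hi _ => ?_⟩
      obtain ⟨a, b, e⟩ := (hT _).1 (h i hi)
      simp [hi, hc.eq_iff] at e
      simp [e]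
end

theorem smp_np {S : Type} [Semigroup S] [Finite S] (h : CompReg S) {cd : S → ℕ} (hcd : Function.Injective cd) :
    InNP (lang (SMP cd)) := by
  classical
  obtain ⟨N, hN⟩ := expo h
  have := Fintype.ofFinite (WithOne S)
  have := Fintype.ofFinite S
  let c : WithOne S → ℕ := WithOne.recOneCoe 0 fun s => cd s + 1
  have c1 : c 1 = 0 := rfl
  have c2 : ∀ s : S, c s = cd s + 1 := fun _ => rfl
  have hc : Function.Injective c := fun x y e => by
    induction x using WithOne.recOneCoe <;> induction y using WithOne.recOneCoe <;>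
      simp_all [hcd.eq_iff]
  obtain ⟨C, hC⟩ : ∃ C, ∀ x, c x ≤ C := ⟨∑ x, c x, fun x => Finset.single_le_sum (f := c) (by simp) (by simp)⟩
  clear_value c
  obtain ⟨T, hT⟩ : ∃ T : List (ℕ × ℕ × ℕ), ∀ x, x ∈ T ↔ ∃ a b, x = (c a, c b, c (a * b)) :=
    ⟨(Finset.univ : Finset (_ × _)).toList.map fun e => (c e.1, c e.2, c (e.1 * e.2)), by simp [eq_comm]⟩
  obtain ⟨A, hA⟩ : ∃ A : List ℕ, ∀ x, x ∈ A ↔ ∃ s, cd s = x := ⟨Finset.univ.toList.map cd, by simp⟩
  have h1 : ∀ a b : WithOne S, a * b = 1 → a = 1 ∧ b = 1 := fun x y e => by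
    induction x using WithOne.recOneCoe <;> induction y using WithOne.recOneCoe <;>
      simp_all [← WithOne.coe_mul]
  have pb : ∀ t, PT fun p : ℕ × List (List ℕ) × List ℕ =>
      (nxt N (Fintype.card (WithOne S) * p.1) p.1 p.2.1.length)^[t] 1 := fun t => by
    induction t with
    | zero => exact PT.const _
    | succ t ih => simp only [Function.iterate_succ_apply']; unfold nxt; fun_prop
  have tp : ∀ {n} (b : Fin n → S), (List.ofFn (cd ∘ b)).map (· + 1) = List.ofFn (c ∘ fun i => (b i : WithOne S)) :=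
    fun b => by simp [List.map_ofFn, Function.comp_def, c2]
  have hG : ∀ {n} {G : List (List ℕ)} (a : Fin G.length → Fin n → S), (∀ i : Fin G.length, G[i] = List.ofFn (cd ∘ a i)) →
      ∀ x, x ∈ G.map (List.map (· + 1)) ↔ ∃ b ∈ ((Finset.univ.image fun i j => (a i j : WithOne S) :
        Finset (Fin n → WithOne S)) : Set (Fin n → WithOne S)), x = List.ofFn (c ∘ b) := fun a ha x => by
    simp only [List.mem_map, Finset.coe_image, Finset.coe_univ,
      Set.image_univ, Set.exists_range_iff, ← tp, ← ha]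
    refine ⟨fun ⟨_, h, e⟩ => ?_, fun ⟨i, e⟩ => ⟨_, List.getElem_mem i.2, e.symm⟩⟩
    obtain ⟨i, hi, rfl⟩ := List.getElem_of_mem h
    exact ⟨⟨i, hi⟩, e.symm⟩
  refine inNP_lang (fun p (W : List (List ℕ)) => (!p.2.1.isEmpty &&
    (p.2.2 :: p.2.1).all fun x => decide (x.length = p.1) && x.all fun y => decide (y ∈ A)) &&
      (decide (p.2.2.map (· + 1) ∈ W) && chk p.1 (p.2.1.map (List.map (· + 1))) T W))
    (by unfold chk ok; fun_prop)
    (((pb (Fintype.card (WithOne S))).mul (g := fun p => 2 * (p.1 * (2 * C + 1)) + 1) (by fun_prop)).nat_pb) ?_ ?_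
  · rintro ⟨n, G, _⟩ h
    simp only [SMP] at h
    obtain ⟨a, b, ha, rfl, hb⟩ := h
    obtain ⟨L, l1, l2, l3⟩ := cl_all (ι := Fin n) hN h1 (S := Fintype.card (WithOne S) * n)
      (by simpa [pow_mul] using Nat.pow_le_pow_left Nat.lt_two_pow_self.le n) G.length
      (Fintype.card (WithOne S)) (Finset.univ.image fun i j => (a i j : WithOne S)) (fun j => (b j : WithOne S))
      (Finset.card_image_le.trans (by simp)) (by
        clear ha
        induction hb using Subsemigroup.closure_induction with
        | mem x hx => obtain ⟨i, rfl⟩ := hx; exact Submonoid.subset_closure (by simp)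
        | mul x y _ _ u v => exact mul_mem u v) fun _ => Finset.card_le_univ _
    refine ⟨L.map fun x => List.ofFn (c ∘ x), (sz_le_of_forall (B := n * (2 * C + 1)) fun x hx => ?_).trans
      (Nat.mul_le_mul_right _ (by simpa using l3)), ?_⟩
    · obtain ⟨y, -, rfl⟩ := List.mem_map.1 hx
      simpa using sz_le_of_forall (l := List.ofFn (c ∘ y)) (B := C) (by simp [List.mem_ofFn, hC])
    · have : G ≠ [] := by
        rintro rfl
        simp [Set.range_eq_empty] at hb
        exact hb
      simp only [chk_of c1 hT (hG a ha) l1, tp, decide_eq_true (List.mem_map_of_mem l2), Bool.and_true,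
        Bool.and_eq_true, List.all_eq_true, decide_eq_true_eq, List.forall_mem_cons, hA]
      refine ⟨by simpa using this, by simp [List.mem_ofFn], fun x hx => ?_⟩
      obtain ⟨i, hi, rfl⟩ := List.getElem_of_mem hx
      have := ha ⟨i, hi⟩
      simp only [Fin.getElem_fin] at this
      simp [this, List.mem_ofFn]
  · rintro ⟨n, G, b⟩ W h
    simp only [Bool.and_eq_true, List.all_eq_true, decide_eq_true_eq, hA, Bool.not_eq_true',
      List.isEmpty_eq_false_iff] at h
    obtain ⟨⟨h0, h2⟩, h3, h4⟩ := h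
    have : ∀ x ∈ b :: G, ∃ a : Fin n → S, x = List.ofFn (cd ∘ a) := fun x hx => by
      obtain ⟨rfl, e⟩ := h2 x hx
      choose a ha using fun i : Fin x.length => e x[i] (List.getElem_mem _)
      exact ⟨a, List.ext_getElem (by simp) fun i hi _ => by simpa using (ha ⟨i, hi⟩).symm⟩
    obtain ⟨b, rfl⟩ := this b (by simp)
    choose a ha using fun i : Fin G.length => this G[i] (by simp)
    refine ⟨a, b, ha, rfl, ?_⟩
    obtain ⟨m, hm, e⟩ := of_chk hc c1 hT (hG a ha) h4 _ h3
    rw [tp, List.ofFn_inj] at e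
    obtain rfl : (fun i => (b i : WithOne S)) = m := funext fun i => hc (congrFun e i)
    have : ∀ m ∈ Submonoid.closure ((Finset.univ.image fun i j => (a i j : WithOne S) :
        Finset (Fin n → WithOne S)) : Set (Fin n → WithOne S)), m = 1 ∨
        ∃ s ∈ Subsemigroup.closure (Set.range a), m = fun i => (s i : WithOne S) := fun m hm => by
      induction hm using Submonoid.closure_induction with
      | mem x hx =>
        obtain ⟨i, rfl⟩ : ∃ i, (fun j => (a i j : WithOne S)) = x := by simpa using hx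
        exact .inr ⟨a i, Subsemigroup.subset_closure ⟨i, rfl⟩, rfl⟩
      | one => exact .inl rfl
      | mul x y _ _ u v =>
        rcases u with rfl | ⟨s, hs, rfl⟩
        · simpa using v
        rcases v with rfl | ⟨t, ht, rfl⟩
        · exact .inr ⟨s, hs, by simp⟩
        · exact .inr ⟨s * t, mul_mem hs ht, rfl⟩
    rcases this _ hm with e | ⟨s, hs, e⟩
    · have : b = a ⟨0, List.length_pos_iff.2 h0⟩ := funext fun i => absurd (congrFun e i) (by simp)
      exact this ▸ Subsemigroup.subset_closure ⟨_, rfl⟩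
    · have : b = s := funext fun i => by simpa using congrFun e i
      exact this ▸ hs

end Pool.Agent.H38.Smp
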